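import Pool.Agent.H29.ENR.Stmts3

/-!
# Row MO2 of board enr (helper66)
-/

set_option autoImplicit false

namespace Pool.ENR

open Polynomial

theorem mo2_ker {p : ℕ} (f : ℤ[X]) (hf : f.map (Int.castRingHom (ZMod p)) = 0) :
    ∃ K : ℤ[X], f = C (p : ℤ) * K := by
  have h : C (p : ℤ) ∣ f := by
    rw [C_dvd_iff_dvd_coeff]
    intro i
    have h1 := congrArg (fun q => coeff q i) hf
    simp only [coeff_map, coeff_zero] at h1
    exact (ZMod.intCast_zmod_eq_zero_iff_dvd _ _).1 h1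
  exact h

theorem mo2_eq {p : ℕ} (f g : ℤ[X])
    (hf : f.map (Int.castRingHom (ZMod p)) = g.map (Int.castRingHom (ZMod p))) :
    ∃ K : ℤ[X], f = g + C (p : ℤ) * K := by
  obtain ⟨K, hK⟩ := mo2_ker (p := p) (f - g) (by rw [Polynomial.map_sub, hf, sub_self])
  exact ⟨K, by rw [← hK]; ring⟩

theorem mo2_core {Q : Type} [AddCommGroup Q] [Finite Q] [Module ℤ[X] Q] {p c m : ℕ}
    [Fact p.Prime] {z w : Q} (hc : 1 ≤ c) (hm : ¬ p ∣ m)
    (hX : ∀ x : Q, (X ^ m : ℤ[X]) • x = x) (hw : w ≠ 0)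
    (hU : ∀ U : AddSubgroup Q, U ≠ ⊥ → (∀ x ∈ U, (X : ℤ[X]) • x ∈ U) → w ∈ U)
    (hz : p ^ c • z = 0) (hz1 : (X : ℤ[X]) • (p ^ (c - 1) • z) ≠ p ^ (c - 1) • z)
    (g : (ZMod p)[X]) (hg : Irreducible g) (hgX : g ∣ X ^ m - 1)
    (hgw : ∀ f : ℤ[X], g ∣ f.map (Int.castRingHom (ZMod p)) → f • w = 0) :
    ∃ (R : Type) (_ : CommRing R) (ε : R →+ Q) (ζ : R), GRing R p c ∧ Function.Injective ε ∧
      ε 1 = z ∧ (∀ x, (X : ℤ[X]) • (ε x) = ε (ζ * x)) ∧ IsUnit (ζ - 1) ∧ ζ ^ m = 1 := by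
  classical
  let I : Ideal ℤ[X] := LinearMap.ker (LinearMap.toSpanSingleton ℤ[X] Q z)
  let ε : (ℤ[X] ⧸ I) →ₗ[ℤ[X]] Q := Submodule.liftQ I (LinearMap.toSpanSingleton ℤ[X] Q z) le_rfl
  have hmk : ∀ f : ℤ[X], ε (Ideal.Quotient.mk I f) = f • z := fun f => rfl
  have hinj : Function.Injective ε := by
    rw [← LinearMap.ker_eq_bot]
    exact Submodule.ker_liftQ_eq_bot _ _ _ le_rfl
  have hmul : ∀ (f : ℤ[X]) (x : ℤ[X] ⧸ I), ε (Ideal.Quotient.mk I f * x) = f • ε x := by
    intro f x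
    obtain ⟨k, rfl⟩ := Ideal.Quotient.mk_surjective x
    rw [← map_mul, hmk, hmk, mul_smul]
  have hfin : Finite (ℤ[X] ⧸ I) := Finite.of_injective ε hinj
  have hone : ε 1 = z := by
    have := hmk 1
    rw [one_smul, map_one] at this
    exact this
  have hCp : ∀ x : Q, (C (p : ℤ) : ℤ[X]) • x = p • x := by
    intro x
    rw [show (C (p : ℤ) : ℤ[X]) = ((p : ℕ) : ℤ[X]) by simp, Nat.cast_smul_eq_nsmul]
  have hmkp : Ideal.Quotient.mk I (C (p : ℤ)) = (p : ℤ[X] ⧸ I) := by
    rw [show (C (p : ℤ) : ℤ[X]) = ((p : ℕ) : ℤ[X]) by simp, map_natCast]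
  have hpn : ∀ n : ℕ, ε ((p : ℤ[X] ⧸ I) ^ n) = p ^ n • z := by
    intro n
    have h1 : ((p : ℤ[X] ⧸ I) ^ n) = p ^ n • (1 : ℤ[X] ⧸ I) := by
      rw [nsmul_eq_mul, mul_one, Nat.cast_pow]
    rw [h1, map_nsmul, hone]
  have hpc : (p : ℤ[X] ⧸ I) ^ c = 0 := hinj (by rw [hpn, hz, map_zero])
  have hpc1 : (p : ℤ[X] ⧸ I) ^ (c - 1) ≠ 0 := by
    intro h
    have h1 := hpn (c - 1)
    rw [h, map_zero] at h1
    apply hz1
    rw [← h1, smul_zero]
  have hnil : IsNilpotent (p : ℤ[X] ⧸ I) := ⟨c, hpc⟩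
  set ζ : ℤ[X] ⧸ I := Ideal.Quotient.mk I X with hζ
  have hζm : ζ ^ m = 1 := by
    apply hinj
    rw [hζ, ← map_pow, hmk, hX, hone]
  -- zero divisors kill w
  have hzd : ∀ (f : ℤ[X]) (y : ℤ[X] ⧸ I), y ≠ 0 → Ideal.Quotient.mk I f * y = 0 → f • w = 0 := by
    intro f y hy hfy
    let U : AddSubgroup Q :=
      { carrier := {x | ∃ r : ℤ[X] ⧸ I, x = ε (r * y)}
        zero_mem' := ⟨0, by rw [zero_mul, map_zero]⟩
        add_mem' := by
          rintro a b ⟨r, rfl⟩ ⟨s, rfl⟩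
          exact ⟨r + s, by rw [add_mul, map_add]⟩
        neg_mem' := by
          rintro a ⟨r, rfl⟩
          exact ⟨-r, by rw [show -r * y = -(r * y) by ring, map_neg]⟩ }
    have h1 : w ∈ U := by
      apply hU
      · intro h
        have h2 : ε y ∈ U := ⟨1, by rw [one_mul]⟩
        rw [h, AddSubgroup.mem_bot] at h2
        exact hy (hinj (by rw [h2, map_zero]))
      · rintro x ⟨r, rfl⟩
        exact ⟨ζ * r, by rw [mul_assoc, hmul]⟩
    obtain ⟨r, hr⟩ := h1
    rw [hr, ← hmul]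
    have h2 : Ideal.Quotient.mk I f * (r * y) = r * (Ideal.Quotient.mk I f * y) := by ring
    rw [h2, hfy, mul_zero, map_zero]
  have hunit : ∀ f : ℤ[X], f • w ≠ 0 → IsUnit (Ideal.Quotient.mk I f) := by
    intro f hf
    have h1 : Function.Injective fun y : ℤ[X] ⧸ I => Ideal.Quotient.mk I f * y := by
      intro a b hab
      by_contra hne
      refine hf (hzd f (a - b) (sub_ne_zero.2 hne) ?_)
      rw [mul_sub, sub_eq_zero]
      exact hab
    obtain ⟨y, hy⟩ := (Finite.injective_iff_surjective.1 h1) 1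
    exact IsUnit.of_mul_eq_one y hy
  obtain ⟨h, hh⟩ := hgX
  have hsurj : Function.Surjective (Polynomial.map (Int.castRingHom (ZMod p))) :=
    Polynomial.map_surjective _ (ZMod.intCast_surjective)
  obtain ⟨G, hG⟩ := hsurj g
  obtain ⟨H, hH⟩ := hsurj h
  have hm0 : ((m : ℕ) : ZMod p) ≠ 0 := by
    rw [Ne, ZMod.natCast_eq_zero_iff]
    exact hm
  have hsq : Squarefree (X ^ m - 1 : (ZMod p)[X]) := by
    have h1 := Polynomial.separable_X_pow_sub_C (1 : ZMod p) hm0 one_ne_zero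
    rw [map_one] at h1
    exact h1.squarefree
  have hcop : IsCoprime g h := by
    rw [hg.coprime_iff_not_dvd]
    rintro ⟨k, hk⟩
    exact hg.not_isUnit (hsq g ⟨k, by rw [hh, hk]; ring⟩)
  have hHu : IsUnit (Ideal.Quotient.mk I H) := by
    apply hunit
    intro h0
    obtain ⟨a, b, hab⟩ := hcop
    obtain ⟨B, hB⟩ := hsurj b
    have h1 : (B * H - 1 : ℤ[X]) • w = 0 := by
      apply hgw
      refine ⟨-a, ?_⟩
      rw [Polynomial.map_sub, Polynomial.map_mul, Polynomial.map_one, hB, hH]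
      linear_combination hab
    rw [sub_smul, one_smul, mul_smul, h0, smul_zero, zero_sub, neg_eq_zero] at h1
    exact hw h1
  have hGp : ∃ y : ℤ[X] ⧸ I, Ideal.Quotient.mk I G = p * y := by
    obtain ⟨K, hK⟩ := mo2_eq (p := p) (G * H) (X ^ m - 1) (by
      rw [Polynomial.map_mul, hG, hH, Polynomial.map_sub, Polynomial.map_pow, map_X,
        Polynomial.map_one, hh])
    obtain ⟨u, hu⟩ := hHu
    refine ⟨Ideal.Quotient.mk I K * ↑u⁻¹, ?_⟩
    have h1 := congrArg (Ideal.Quotient.mk I) hK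
    rw [map_mul, map_add, map_sub, map_pow, map_one, map_mul, hmkp, ← hζ, hζm, sub_self, zero_add,
      ← hu] at h1
    rw [← mul_assoc, ← h1, Units.mul_inv_cancel_right]
  have hloc : ∀ x : ℤ[X] ⧸ I, IsUnit x ∨ ∃ y, x = p * y := by
    intro x
    obtain ⟨f, rfl⟩ := Ideal.Quotient.mk_surjective x
    obtain ⟨y, hy⟩ := hGp
    by_cases hgf : g ∣ f.map (Int.castRingHom (ZMod p))
    · right
      obtain ⟨q, hq⟩ := hgf
      obtain ⟨q', hq'⟩ := hsurj q
      obtain ⟨K, hK⟩ := mo2_eq (p := p) f (G * q') (by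
        rw [Polynomial.map_mul, hG, hq', hq])
      refine ⟨y * Ideal.Quotient.mk I q' + Ideal.Quotient.mk I K, ?_⟩
      rw [hK, map_add, map_mul, map_mul, hmkp, hy]
      ring
    · left
      obtain ⟨a, b, hab⟩ := (hg.coprime_iff_not_dvd).2 hgf
      obtain ⟨A, hA⟩ := hsurj a
      obtain ⟨B, hB⟩ := hsurj b
      obtain ⟨K, hK⟩ := mo2_eq (p := p) (A * G + B * f) 1 (by
        rw [Polynomial.map_add, Polynomial.map_mul, Polynomial.map_mul, hG, hA, hB,
          Polynomial.map_one, hab])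
      have h1 := congrArg (Ideal.Quotient.mk I) hK
      rw [map_add, map_add, map_mul, map_mul, map_mul, map_one, hmkp, hy] at h1
      have h2 : Ideal.Quotient.mk I B * Ideal.Quotient.mk I f =
          1 + p * (Ideal.Quotient.mk I K - Ideal.Quotient.mk I A * y) := by
        linear_combination h1
      have h3 : IsUnit (Ideal.Quotient.mk I B * Ideal.Quotient.mk I f) := by
        rw [h2]
        exact IsNilpotent.isUnit_one_add (Commute.isNilpotent_mul_right (Commute.all _ _) hnil)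
      exact isUnit_of_mul_isUnit_right h3
  refine ⟨ℤ[X] ⧸ I, inferInstance, ε.toAddMonoidHom, ζ, ⟨hfin, hpc, hpc1, hloc⟩, hinj, hone,
    fun x => (hmul X x).symm, ?_, hζm⟩
  rcases hloc (ζ - 1) with h1 | ⟨y, hy⟩
  · exact h1
  · exfalso
    apply hz1
    have h2 : (p : ℤ[X] ⧸ I) ^ (c - 1) * (ζ - 1) = 0 := by
      rw [hy, ← mul_assoc, ← pow_succ, Nat.sub_add_cancel hc, hpc, zero_mul]
    have h3 : ζ * (p : ℤ[X] ⧸ I) ^ (c - 1) = (p : ℤ[X] ⧸ I) ^ (c - 1) := by
      linear_combination h2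
    have h4 := congrArg ε h3
    rw [hmul, hpn] at h4
    exact h4

theorem mo2_thm (h1 : MO1Stmt) : MO2Stmt := by
  intro Q _ _ p c m α z w hp hc hm hα hw hU hz hz1
  have hpf : Fact p.Prime := ⟨hp⟩
  let αl : Module.End ℤ Q := α.toIntLinearMap
  let _ : Module ℤ[X] Q := Module.compHom Q (Polynomial.aeval (R := ℤ) αl).toRingHom
  have hsm : ∀ (f : ℤ[X]) (x : Q), f • x = aeval αl f x := fun _ _ => rfl
  have hXn : ∀ (n : ℕ) (x : Q), (X ^ n : ℤ[X]) • x = α^[n] x := by
    intro n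
    induction n with
    | zero => intro x; rw [pow_zero, one_smul]; rfl
    | succ n ih =>
      intro x
      rw [pow_succ, mul_smul, ih, Function.iterate_succ_apply]
      congr 1
      rw [hsm, aeval_X]
      rfl
  have hXs : ∀ x : Q, (X : ℤ[X]) • x = α x := by
    intro x
    have := hXn 1 x
    rwa [pow_one] at this
  let W : AddSubgroup Q :=
    { carrier := {x | p • x = 0}
      zero_mem' := smul_zero p
      add_mem' := by
        intro a b ha hb
        change p • (a + b) = 0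
        rw [smul_add]
        rw [show p • a = 0 from ha, show p • b = 0 from hb, add_zero]
      neg_mem' := by
        intro a ha
        change p • (-a) = 0
        rw [smul_neg, show p • a = 0 from ha, neg_zero] }
  have hW : ∀ x : Q, x ∈ W ↔ p • x = 0 := fun _ => Iff.rfl
  have hαW : ∀ x : W, α x ∈ W := by
    intro x
    rw [hW, ← map_nsmul, (hW _).1 x.2, map_zero]
  have hwW : w ∈ W := by
    apply hU
    · intro h
      have h2 : p ^ (c - 1) • z ∈ W := by
        rw [hW, ← mul_smul, ← pow_succ', Nat.sub_add_cancel hc, hz]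
      rw [h, AddSubgroup.mem_bot] at h2
      apply hz1
      rw [h2, map_zero]
    · intro x hx
      exact hαW ⟨x, hx⟩
  let _ : Module (ZMod p) W := AddCommGroup.zmodModule (n := p) (fun x => Subtype.ext x.2)
  let αW : W →+ W := (α.comp W.subtype).codRestrict W hαW
  let β : Module.End (ZMod p) W := αW.toZModLinearMap p
  have hβ : ∀ (n : ℕ) (x : W), (((β ^ n) x : W) : Q) = α^[n] x := by
    intro n
    induction n with
    | zero => intro x; rfl
    | succ n ih =>
      intro x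
      rw [pow_succ, Module.End.mul_apply, ih, Function.iterate_succ_apply]
      rfl
  have hβm : β ^ m = 1 := by
    ext x
    rw [hβ, hα]
    rfl
  have hirr := h1 p W β m ⟨w, hwW⟩ hm hβm (fun h => hw (congrArg Subtype.val h)) (by
    intro U hU0 hUα
    have h2 : w ∈ U.toAddSubgroup.map W.subtype := by
      apply hU
      · intro h3
        apply hU0
        rw [eq_bot_iff]
        intro x hx
        have h4 : (x : Q) ∈ U.toAddSubgroup.map W.subtype := ⟨x, hx, rfl⟩
        rw [h3, AddSubgroup.mem_bot] at h4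
        rw [Submodule.mem_bot]
        exact Subtype.ext h4
      · rintro _ ⟨x, hx, rfl⟩
        exact ⟨β x, hUα x hx, rfl⟩
    obtain ⟨x, hx, hxw⟩ := h2
    have h5 : x = ⟨w, hwW⟩ := Subtype.ext hxw
    rw [← h5]
    exact hx)
  have haev : ∀ (f : ℤ[X]) (x : W),
      ((aeval β (f.map (Int.castRingHom (ZMod p))) x : W) : Q) = f • (x : Q) := by
    intro f x
    induction f using Polynomial.induction_on' with
    | add f k hf hk =>
      rw [Polynomial.map_add, map_add, LinearMap.add_apply, AddSubgroup.coe_add, hf, hk, add_smul]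
    | monomial n a =>
      rw [Polynomial.map_monomial, aeval_monomial, ← C_mul_X_pow_eq_monomial, mul_smul, hXn]
      rw [Module.End.mul_apply, Module.algebraMap_end_apply, eq_intCast, Int.cast_smul_eq_zsmul,
        AddSubgroup.coe_zsmul, hβ]
      rw [hsm, aeval_C]
      rfl
  obtain ⟨R, hR, ε, ζ, h2, h3, h4, h5, h6, h7⟩ := mo2_core (Q := Q) (p := p) (c := c) (m := m)
    (z := z) (w := w) hc hm (fun x => by rw [hXn, hα]) hw
    (fun U hU0 hUX => hU U hU0 (fun x hx => by rw [← hXs]; exact hUX x hx)) hz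
    (by rw [hXs]; exact hz1) (minpoly (ZMod p) β) hirr
    (minpoly.dvd (ZMod p) β (by rw [map_sub, map_pow, aeval_X, map_one, hβm, sub_self]))
    (by
      rintro f ⟨q, hq⟩
      rw [← haev f ⟨w, hwW⟩, hq, map_mul, minpoly.aeval, zero_mul]
      rfl)
  refine ⟨R, hR, ε, ζ, h2, h3, h4, fun x => ?_, h6, h7⟩
  rw [← hXs]
  exact h5 x

end Pool.ENR
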